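import Pool.Agent.T9h94.Iso.Final
import Pool.Agent.T9h94.Iso.M1
import Pool.Agent.T9h46.Iso.M2
import Pool.Agent.T9h85.Iso.M3

/-!
# Deciding whether a semialgebraic set has an isolated point is `∃∀ℝ`-complete

Sketch of the hardness proof (the reduction of `∃ X ∀ Y, φ(X, Y)`).

* Normal form.  There are an explicit polynomial `G(X, y)` (with doubly exponentially large integer
  constants, written down as chains of squares) and a compact ball for `y` such that: if the
  sentence is false, then for every `X` of the cube `[-2, 2]ⁿ` some `y` in the ball has
  `G(X, y) ≤ 0`; if it is true, then some small `X₀` has `G(X₀, y) ≥ 1/2` for all `y`.  `G` is the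
  value at `t = 1` of a form `G(X, y, t)` of degree four in `(y, t)`.
* Critical points.  Let `F(X, y) = G(X, y) + β ∑ y_a^(2n+4) - |X|² + ∑ c_k m_k(X, y)` with
  perturbation coefficients `c_k` (of the `X_b` and of the `y_a z_s(y)^d`, `z_s(y) = ∑ s^b y_b` for
  the integers `s < S₀`).  The maximum over `X` of the minimum over `y` of `F` is a critical point
  in the sense of Fritz John: there are at most `n + 1` distinct points `y_i` and weights `w_i` with
  sum `1` such that `F(X, y_i) = v`, `∂F/∂y (X, y_i) = 0` and `∑ w_i ∂F/∂X (X, y_i) = 0`.
* Finiteness.  By counting polynomials of bounded degree, there are parameters `c` on an explicit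
  grid (integers with polynomially many bits times `2^(-2^u)`) for which the solutions of this
  system with distinct values of some `z_s(y_i)` are finite in number; one of the `s` works since
  the points `y_i` are distinct.
* The cone.  The semialgebraic set is the set of all `(c, X, v, y, w, t, z)` such that the bits of
  `c` are `0` or `1`, the system holds, and either `t = 0`, `z = 0`, or `t > 0`, `|z_a|² ≤ q t²` and
  `G(X, z, t) ≤ 0`.  If the sentence is true, then at the critical point the last alternative is
  impossible, and the point with `t = 0` is isolated.  If it is false, no point is isolated.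
-/

set_option autoImplicit false

namespace Pool.Agent.Results.MP_47d501_lc.IsolatedPointComplete

open Pool.Agent.NPC Pool.Agent.NPC.ER Pool.Agent.NPC.R537HD Pool.Agent.T9h94.Iso.Red

/-- The point `x` is an isolated point of the set `S` in `ℝⁿ`: it belongs to `S`, and some open
ball with centre `x` meets `S` only in `x`. -/
def IsIsolated {n : ℕ} (S : Set (EuclideanSpace ℝ (Fin n))) (x : EuclideanSpace ℝ (Fin n)) :
    Prop := x ∈ S ∧ ∃ ε : ℝ, 0 < ε ∧ Metric.ball x ε ∩ S = {x}

/-- **ISOLATED-POINT-EXISTENCE.** The input is a natural number `n` (written in unary, as a list of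
length `n`) and a quantifier-free formula `φ` (a Boolean combination of polynomial equations and
inequalities with integer coefficients) whose variables are among `x₀, …, x_{n-1}`; the question is
whether the semialgebraic set of `ℝⁿ` given by `φ` has an isolated point. -/
def IsolatedPointExistence (I : List Unit × Fm) : Prop :=
  (∀ i, Tok.var i ∈ I.2.toks → i < I.1.length) ∧
    ∃ x : EuclideanSpace ℝ (Fin I.1.length), IsIsolated (semi I.1.length I.2) x

theorem ipe_iff (I : List Unit × Fm) : IsolatedPointExistence I ↔ IPE I := by
  refine and_congr Iff.rfl ?_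
  constructor
  · rintro ⟨x, hx, ε, hε, h⟩
    refine ⟨x, hx, ε, hε, fun y hy hd => ?_⟩
    have : y ∈ Metric.ball x ε ∩ semi I.1.length I.2 := ⟨Metric.mem_ball.2 hd, hy⟩
    rw [h] at this
    exact this
  · rintro ⟨x, hx, ε, hε, h⟩
    refine ⟨x, hx, ε, hε, ?_⟩
    ext y
    constructor
    · rintro ⟨hd, hy⟩
      exact h y hy (Metric.mem_ball.1 hd)
    · rintro rfl
      exact ⟨Metric.mem_ball_self hε, hx⟩

/-- **ISOLATED-POINT-EXISTENCE is `∃∀ℝ`-complete** under polynomial-time many-one reductions. -/
theorem result : EARComplete (lang IsolatedPointExistence) := by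
  have h : IsolatedPointExistence = IPE := funext fun I => propext (ipe_iff I)
  rw [h]
  exact complete Pool.Agent.NPC.T9h94M1.stmtM1 stmtM2 stmtM3

end Pool.Agent.Results.MP_47d501_lc.IsolatedPointComplete
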